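import Pool.Agent.Q223.TE.Stm

/-!
# Project TE (helper223), job TE-PULL: the pull-back of equivariant Grothendieck rings (helper184)
-/

set_option autoImplicit false
set_option linter.unusedSectionVars false

namespace Pool.Agent.Q184.TE

open MvPolynomial Pool.Agent.W428.MOT Pool.Agent.W358.ME.EK0 Pool.Agent.Q223.TE

variable {k : Type} [Field k]

/-! ### Points with two blocks of coordinates -/

section Blocks

variable {N n : ℕ}

/-- the first block -/
def fs (n : ℕ) (z : Pt k (Fin (N + n))) : Pt k (Fin N) := fun i => z (Fin.castAdd n i)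

/-- the second block -/
def sn (N : ℕ) (z : Pt k (Fin (N + n))) : Pt k (Fin n) := fun i => z (Fin.natAdd N i)

/-- a point with given blocks -/
def ap (v : Pt k (Fin N)) (x : Pt k (Fin n)) : Pt k (Fin (N + n)) :=
  Fin.append (α := AlgebraicClosure k) v x

theorem fs_ap (v : Pt k (Fin N)) (x : Pt k (Fin n)) : fs n (ap v x) = v := by
  funext i
  exact Fin.append_left v x i

theorem sn_ap (v : Pt k (Fin N)) (x : Pt k (Fin n)) : sn N (ap v x) = x := by
  funext i
  exact Fin.append_right v x i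

theorem ap_fs_sn (z : Pt k (Fin (N + n))) : ap (fs n z) (sn N z) = z :=
  Fin.append_castAdd_natAdd

theorem rf_rename {α β : Type} {S : Set (Pt k α)} {G : Pt k α → AlgebraicClosure k}
    (hG : IsRF S G) (a : α → β) (T : Set (Pt k β)) (h : ∀ z ∈ T, (fun i => z (a i)) ∈ S) :
    IsRF T (fun z => G (fun i => z (a i))) := by
  obtain ⟨P, Q, hPQ⟩ := hG
  refine ⟨rename a P, rename a Q, fun z hz => ?_⟩
  rw [aeval_rename, aeval_rename]
  exact hPQ _ (h z hz)

theorem rg_rename {α β κ : Type} {S : Set (Pt k α)} {G : Pt k α → Pt k κ}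
    (hG : RegularOn S G) (a : α → β) (T : Set (Pt k β)) (h : ∀ z ∈ T, (fun i => z (a i)) ∈ S) :
    RegularOn T (fun z => G (fun i => z (a i))) :=
  fun i => rf_rename (hG i) a T h

theorem rg_ap {α : Type} {T : Set (Pt k α)} {G : Pt k α → Pt k (Fin N)} {H : Pt k α → Pt k (Fin n)}
    (hG : RegularOn T G) (hH : RegularOn T H) : RegularOn T (fun z => ap (G z) (H z)) := by
  intro i
  refine Fin.addCases (fun i => ?_) (fun i => ?_) i
  · have h1 : ∀ z, ap (G z) (H z) (Fin.castAdd n i) = G z i := fun z => Fin.append_left _ _ i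
    simp only [h1]
    exact hG i
  · have h1 : ∀ z, ap (G z) (H z) (Fin.natAdd N i) = H z i := fun z => Fin.append_right _ _ i
    simp only [h1]
    exact hH i

theorem rg_mono {α κ : Type} {S T : Set (Pt k α)} {G : Pt k α → Pt k κ} (hG : RegularOn S G)
    (h : T ⊆ S) : RegularOn T G := by
  intro i
  obtain ⟨P, Q, hPQ⟩ := hG i
  exact ⟨P, Q, fun z hz => hPQ z (h hz)⟩

end Blocks

/-! ### The fibre product -/

section Pb

variable {m n : ℕ} {F : MvPolynomial (Fin m) k} (f : MvPolynomial (Fin n) k)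
  (Φ : Fin m → MvPolynomial (Fin n) k)

/-- The polynomial map. -/
noncomputable def ev (Φ : Fin m → MvPolynomial (Fin n) k) (x : Pt k (Fin n)) : Pt k (Fin m) :=
  fun j => aeval x (Φ j)

/-- the points of the fibre product over a subset -/
def pS (V : MuVar F) (T : Set (Pt k (Fin V.N))) : Set (Pt k (Fin (V.N + n))) :=
  {z | fs n z ∈ T ∧ aeval (sn V.N z) f = 0 ∧ V.π (fs n z) = ev Φ (sn V.N z)}

theorem pS_constr (V : MuVar F) (T : Set (Pt k (Fin V.N))) (hT : Constr T) (hTS : T ⊆ V.S) :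
    Constr (pS f Φ V T) := by
  have h := V.regular_π
  choose P Q hPQ using h
  have h1 : pS f Φ V T = {z | fs n z ∈ T ∧ (aeval (sn V.N z) f = 0 ∧
      ∀ j, aeval (fs n z) (P j) = aeval (sn V.N z) (Φ j) * aeval (fs n z) (Q j))} := by
    ext z
    constructor
    · rintro ⟨h1, h2, h3⟩
      refine ⟨h1, h2, fun j => ?_⟩
      obtain ⟨h4, h5⟩ := hPQ j _ (hTS h1)
      have h6 := congrFun h3 j
      rw [h5] at h6
      rw [div_eq_iff h4] at h6
      exact h6
    · rintro ⟨h1, h2, h3⟩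
      refine ⟨h1, h2, ?_⟩
      funext j
      obtain ⟨h4, h5⟩ := hPQ j _ (hTS h1)
      rw [h5, div_eq_iff h4]
      exact h3 j
  rw [h1]
  have hf : ∀ i, IsPF (fun z : Pt k (Fin (V.N + n)) => fs n z i) := fun i => IsPF.coord _
  have hs : ∀ i, IsPF (fun z : Pt k (Fin (V.N + n)) => sn V.N z i) := fun i => IsPF.coord _
  refine (hT.preimage (fun z : Pt k (Fin (V.N + n)) => fs n z) hf).and
    ((Constr.eqz ((IsPF.poly f).comp _ hs)).and (Constr.all fun j => ?_))
  exact Constr.eq ((IsPF.poly (P j)).comp _ hf)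
    (((IsPF.poly (Φ j)).comp _ hs).mul ((IsPF.poly (Q j)).comp _ hf))

/-- The fibre product of `V → X_s(F)` and `X_s(f) → X_s(F)`. -/
noncomputable def pb (V : MuVar F) : MuVar f where
  N := V.N + n
  S := pS f Φ V V.S
  constr := pS_constr f Φ V V.S V.constr subset_rfl
  π := fun z => sn V.N z
  regular_π := regularOn_poly (fun i => IsPF.coord _) _
  π_mem := fun z hz => hz.2.1
  d := V.d
  d_pos := V.d_pos
  act := fun l z => ap (V.act l (fs n z)) (sn V.N z)
  regular_act := by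
    refine rg_ap ?_ (regularOn_poly (fun i => IsPF.coord _) _)
    exact rg_rename V.regular_act (fun o : Option (Fin V.N) => o.map (Fin.castAdd n)) _
      fun w hw => ⟨hw.1, hw.2.1⟩
  act_mem := fun ζ hζ z hz => by
    refine ⟨?_, ?_, ?_⟩
    · rw [fs_ap]
      exact V.act_mem ζ hζ _ hz.1
    · rw [sn_ap]
      exact hz.2.1
    · rw [fs_ap, sn_ap, V.π_act ζ hζ _ hz.1]
      exact hz.2.2
  act_one := fun z hz => by
    rw [V.act_one _ hz.1, ap_fs_sn]
  act_mul := fun ζ ζ' h h' z hz => by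
    rw [V.act_mul ζ ζ' h h' _ hz.1, fs_ap, sn_ap]
  π_act := fun ζ h z hz => by
    rw [sn_ap]

theorem pb_iso (V W : MuVar F) (φ : Pt k (Fin V.N) → Pt k (Fin W.N))
    (ψ : Pt k (Fin W.N) → Pt k (Fin V.N)) (h : IsMuIso V W φ ψ) :
    K0Mu.mk (pb f Φ V) = K0Mu.mk (pb f Φ W) := by
  refine mk_iso (pb f Φ V) (pb f Φ W) (fun z => ap (φ (fs n z)) (sn V.N z))
    (fun z => ap (ψ (fs n z)) (sn W.N z)) ?_
  exact
    { regular := rg_ap (rg_rename h.regular _ _ fun z hz => hz.1)
        (regularOn_poly (fun i => IsPF.coord _) _)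
      regular' := rg_ap (rg_rename h.regular' _ _ fun z hz => hz.1)
        (regularOn_poly (fun i => IsPF.coord _) _)
      mapsTo := fun z hz => by
        refine ⟨?_, ?_, ?_⟩
        · rw [fs_ap]
          exact h.mapsTo hz.1
        · rw [sn_ap]
          exact hz.2.1
        · rw [fs_ap, sn_ap, h.overBase _ hz.1]
          exact hz.2.2
      mapsTo' := fun z hz => by
        refine ⟨?_, ?_, ?_⟩
        · rw [fs_ap]
          exact h.mapsTo' hz.1
        · rw [sn_ap]
          exact hz.2.1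
        · rw [fs_ap, sn_ap, ← h.overBase _ (h.mapsTo' hz.1), h.right_inv _ hz.1]
          exact hz.2.2
      left_inv := fun z hz => by
        rw [fs_ap, sn_ap, h.left_inv _ hz.1, ap_fs_sn]
      right_inv := fun z hz => by
        rw [fs_ap, sn_ap, h.right_inv _ hz.1, ap_fs_sn]
      overBase := fun z hz => by
        exact sn_ap _ _
      equivariant := fun l hl z hz => by
        have h1 := h.equivariant l hl _ hz.1
        change ap (φ (fs n (ap (V.act (l ^ W.d) (fs n z)) (sn V.N z))))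
          (sn V.N (ap (V.act (l ^ W.d) (fs n z)) (sn V.N z))) =
          ap (W.act (l ^ V.d) (fs n (ap (φ (fs n z)) (sn V.N z))))
            (sn W.N (ap (φ (fs n z)) (sn V.N z)))
        rw [fs_ap, sn_ap, fs_ap, sn_ap, h1] }

theorem pb_scissors (V : MuVar F) (T : Set (Pt k (Fin V.N))) (hT : Constr T) (hTS : T ⊆ V.S)
    (hst : ∀ ζ : AlgebraicClosure k, ζ ^ V.d = 1 → ∀ z ∈ T, V.act ζ z ∈ T)
    (hT' : Constr (V.S \ T))
    (hst' : ∀ ζ : AlgebraicClosure k, ζ ^ V.d = 1 → ∀ z ∈ V.S \ T, V.act ζ z ∈ V.S \ T) :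
    K0Mu.mk (pb f Φ V) = K0Mu.mk (pb f Φ (V.restrict T hT hTS hst)) +
      K0Mu.mk (pb f Φ (V.restrict (V.S \ T) hT' Set.sdiff_subset hst')) := by
  have hd : (pb f Φ V).S \ pS f Φ V T = pS f Φ V (V.S \ T) := by
    ext z
    constructor
    · rintro ⟨h1, h2⟩
      exact ⟨⟨h1.1, fun h3 => h2 ⟨h3, h1.2⟩⟩, h1.2⟩
    · rintro ⟨h1, h2⟩
      exact ⟨⟨h1.1, h2⟩, fun h3 => h1.2 h3.1⟩
  have hC := pS_constr f Φ V T hT hTS
  have hC' : Constr ((pb f Φ V).S \ pS f Φ V T) := by
    rw [hd]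
    exact pS_constr f Φ V _ hT' Set.sdiff_subset
  have hsub : pS f Φ V T ⊆ (pb f Φ V).S := fun z hz => ⟨hTS hz.1, hz.2⟩
  have ha : ∀ ζ : AlgebraicClosure k, ζ ^ (pb f Φ V).d = 1 → ∀ z ∈ pS f Φ V T,
      (pb f Φ V).act ζ z ∈ pS f Φ V T := by
    intro ζ hζ z hz
    have h1 := (pb f Φ V).act_mem ζ hζ z (hsub hz)
    refine ⟨?_, h1.2⟩
    change fs n (ap (V.act ζ (fs n z)) (sn V.N z)) ∈ T
    rw [fs_ap]
    exact hst ζ hζ _ hz.1
  have ha' : ∀ ζ : AlgebraicClosure k, ζ ^ (pb f Φ V).d = 1 → ∀ z ∈ (pb f Φ V).S \ pS f Φ V T,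
      (pb f Φ V).act ζ z ∈ (pb f Φ V).S \ pS f Φ V T := by
    intro ζ hζ z hz
    rw [hd] at hz ⊢
    have h1 := (pb f Φ V).act_mem ζ hζ z ⟨hz.1.1, hz.2⟩
    refine ⟨?_, h1.2⟩
    change fs n (ap (V.act ζ (fs n z)) (sn V.N z)) ∈ V.S \ T
    rw [fs_ap]
    exact hst' ζ hζ _ hz.1
  have h1 := mk_eq_of_rel (RelMu.scissors (pb f Φ V) (pS f Φ V T) hC hsub ha hC' ha')
  rw [map_add] at h1
  refine h1.trans (congrArg₂ (· + ·) rfl ?_)
  refine mk_iso _ (pb f Φ (V.restrict (V.S \ T) hT' Set.sdiff_subset hst')) (fun z => z)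
    (fun z => z) ?_
  exact
    { regular := regularOn_poly (fun i => IsPF.coord i) _
      regular' := regularOn_poly (fun i => IsPF.coord i) _
      mapsTo := fun z hz => (Set.ext_iff.1 hd z).1 hz
      mapsTo' := fun z hz => (Set.ext_iff.1 hd z).2 hz
      left_inv := fun _ _ => rfl
      right_inv := fun _ _ => rfl
      overBase := fun _ _ => rfl
      equivariant := fun _ _ _ _ => rfl }

theorem pb_prod (V W P : MuVar F) (p : Pt k (Fin P.N) → Pt k (Fin V.N))
    (q : Pt k (Fin P.N) → Pt k (Fin W.N)) (j : Pt k (Fin V.N ⊕ Fin W.N) → Pt k (Fin P.N))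
    (h : IsFibreProd V W P p q j) :
    K0Mu.mk (pb f Φ P) = K0Mu.mk (pb f Φ V) * K0Mu.mk (pb f Φ W) := by
  let a : Fin V.N ⊕ Fin W.N → Fin (V.N + n) ⊕ Fin (W.N + n) :=
    Sum.map (Fin.castAdd n) (Fin.castAdd n)
  let p' : Pt k (Fin (P.N + n)) → Pt k (Fin (V.N + n)) := fun z => ap (p (fs n z)) (sn P.N z)
  let q' : Pt k (Fin (P.N + n)) → Pt k (Fin (W.N + n)) := fun z => ap (q (fs n z)) (sn P.N z)
  let J : Pt k (Fin (V.N + n) ⊕ Fin (W.N + n)) → Pt k (Fin (P.N + n)) := fun w =>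
    ap (j (fun s => w (a s))) (fun i => w (Sum.inl (Fin.natAdd V.N i)))
  have hJ : ∀ (v : Pt k (Fin (V.N + n))) (w : Pt k (Fin (W.N + n))),
      J (Sum.elim v w) = ap (j (Sum.elim (fs n v) (fs n w))) (sn V.N v) := by
    intro v w
    have h1 : (fun s => (Sum.elim v w : _ → AlgebraicClosure k) (a s)) =
        Sum.elim (fs n v) (fs n w) := by
      funext s
      rcases s with s | s <;> rfl
    change ap (j (fun s => (Sum.elim v w : _ → AlgebraicClosure k) (a s))) (sn V.N v) = _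
    rw [h1]
  have m1 : ∀ z ∈ pS f Φ P P.S, p' z ∈ pS f Φ V V.S ∧ q' z ∈ pS f Φ W W.S ∧
      sn V.N (p' z) = sn W.N (q' z) ∧ sn V.N (p' z) = sn P.N z := by
    intro z hz
    obtain ⟨h1, h2, h3, h4⟩ := h.mapsTo _ hz.1
    have h5 := hz.2.2
    refine ⟨⟨?_, ?_, ?_⟩, ⟨?_, ?_, ?_⟩, ?_, ?_⟩
    · rw [fs_ap]
      exact h1
    · rw [sn_ap]
      exact hz.2.1
    · rw [fs_ap, sn_ap, h4]
      exact h5
    · rw [fs_ap]
      exact h2
    · rw [sn_ap]
      exact hz.2.1
    · rw [fs_ap, sn_ap, ← h3, h4]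
      exact h5
    · rw [sn_ap, sn_ap]
    · rw [sn_ap]
  have m2 : ∀ v ∈ pS f Φ V V.S, ∀ w ∈ pS f Φ W W.S, sn V.N v = sn W.N w →
      J (Sum.elim v w) ∈ pS f Φ P P.S ∧ p' (J (Sum.elim v w)) = v ∧
        q' (J (Sum.elim v w)) = w := by
    intro v hv w hw h6
    have h7 : V.π (fs n v) = W.π (fs n w) := by
      rw [hv.2.2, hw.2.2, h6]
    obtain ⟨h1, h2, h3⟩ := h.mapsTo' _ hv.1 _ hw.1 h7
    have h9 := (h.mapsTo _ h1).2.2.2
    rw [h2] at h9
    rw [hJ]
    refine ⟨⟨?_, ?_, ?_⟩, ?_, ?_⟩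
    · rw [fs_ap]
      exact h1
    · rw [sn_ap]
      exact hv.2.1
    · rw [fs_ap, sn_ap, ← h9]
      exact hv.2.2
    · change ap (p (fs n _)) (sn P.N _) = v
      rw [fs_ap, sn_ap, h2, ap_fs_sn]
    · change ap (q (fs n _)) (sn P.N _) = w
      rw [fs_ap, sn_ap, h3, h6, ap_fs_sn]
  have m3 : ∀ z ∈ pS f Φ P P.S, J (Sum.elim (p' z) (q' z)) = z := by
    intro z hz
    rw [hJ, fs_ap, fs_ap, sn_ap, h.inj _ hz.1, ap_fs_sn]
  have m4 : RegularOn {w : Pt k (Fin (V.N + n) ⊕ Fin (W.N + n)) |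
      (fun i => w (Sum.inl i)) ∈ pS f Φ V V.S ∧ (fun i => w (Sum.inr i)) ∈ pS f Φ W W.S ∧
        sn V.N (fun i => w (Sum.inl i)) = sn W.N (fun i => w (Sum.inr i))} J := by
    refine rg_ap (rg_rename h.regular_j a _ ?_) (regularOn_poly (fun i => IsPF.coord _) _)
    rintro z ⟨h1, h2, h3⟩
    refine ⟨h1.1, h2.1, ?_⟩
    exact (h1.2.2.trans (congrArg (ev Φ) h3)).trans h2.2.2.symm
  have m5 : RegularOn (pS f Φ P P.S) p' := rg_ap (rg_rename h.regular_p _ _ fun z hz => hz.1)
        (regularOn_poly (fun i => IsPF.coord _) _)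
  have m6 : RegularOn (pS f Φ P P.S) q' := rg_ap (rg_rename h.regular_q _ _ fun z hz => hz.1)
        (regularOn_poly (fun i => IsPF.coord _) _)
  have h1 : IsFibreProd (pb f Φ V) (pb f Φ W) (pb f Φ P) p' q' J :=
    { regular_p := m5
      regular_q := m6
      regular_j := m4
      mapsTo := m1
      mapsTo' := m2
      inj := m3
      equivariant_p := fun l hl z hz => by
        have h1 := h.equivariant_p l hl _ hz.1
        change ap (p (fs n (ap (P.act (l ^ V.d) (fs n z)) (sn P.N z))))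
          (sn P.N (ap (P.act (l ^ V.d) (fs n z)) (sn P.N z))) =
          ap (V.act (l ^ P.d) (fs n (ap (p (fs n z)) (sn P.N z))))
            (sn V.N (ap (p (fs n z)) (sn P.N z)))
        rw [fs_ap, sn_ap, fs_ap, sn_ap, h1]
      equivariant_q := fun l hl z hz => by
        have h1 := h.equivariant_q l hl _ hz.1
        change ap (q (fs n (ap (P.act (l ^ W.d) (fs n z)) (sn P.N z))))
          (sn P.N (ap (P.act (l ^ W.d) (fs n z)) (sn P.N z))) =
          ap (W.act (l ^ P.d) (fs n (ap (q (fs n z)) (sn P.N z))))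
            (sn W.N (ap (q (fs n z)) (sn P.N z)))
        rw [fs_ap, sn_ap, fs_ap, sn_ap, h1] }
  have h2 := mk_eq_of_rel (RelMu.prod _ _ _ _ _ _ h1)
  rw [map_mul] at h2
  exact h2

theorem pb_one (hΦ : ∀ x : Pt k (Fin n), aeval x f = 0 → aeval (fun j => aeval x (Φ j)) F = 0) :
    K0Mu.mk (pb f Φ (MuVar.base F)) = 1 := by
  have g1 : ∀ z : Pt k (Fin (m + n)), fs n z = ev Φ (sn m z) →
      ap (ev Φ (sn m z)) (sn m z) = z := by
    intro z h
    rw [← h, ap_fs_sn]
  have g2 : ∀ x : Pt k (Fin n), aeval x f = 0 → aeval (fs n (ap (ev Φ x) x)) F = 0 ∧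
      aeval (sn m (ap (ev Φ x) x)) f = 0 ∧
        fs n (ap (ev Φ x) x) = ev Φ (sn m (ap (ev Φ x) x)) := by
    intro x hx
    rw [fs_ap, sn_ap]
    exact ⟨hΦ x hx, hx, rfl⟩
  have h1 : K0Mu.mk (pb f Φ (MuVar.base F)) = K0Mu.mk (MuVar.base f) := by
    refine mk_iso (pb f Φ (MuVar.base F)) (MuVar.base f) (fun z => sn m z)
      (fun x => ap (ev Φ x) x) ?_
    exact
      { regular := regularOn_poly (fun i => IsPF.coord _) _
        regular' := rg_ap (regularOn_poly (fun j => IsPF.poly (Φ j)) _)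
          (regularOn_poly (fun i => IsPF.coord _) _)
        mapsTo := fun z hz => hz.2.1
        mapsTo' := fun x hx => g2 x hx
        left_inv := fun z hz => g1 z hz.2.2
        right_inv := fun x hx => sn_ap _ _
        overBase := fun _ _ => rfl
        equivariant := fun l hl z hz => by
          change sn m (ap (fs n z) (sn m z)) = sn m z
          rw [sn_ap] }
  have h2 := mk_eq_of_rel (RelMu.one (f := f))
  rw [map_one] at h2
  exact h1.trans h2

theorem pb_aff (hΦ : ∀ x : Pt k (Fin n), aeval x f = 0 → aeval (fun j => aeval x (Φ j)) F = 0)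
    (r : ℕ) : K0Mu.mk (pb f Φ (MuVar.aff F r)) = K0Mu.mk (MuVar.aff f r) := by
  let A : Pt k (Fin (m + r + n)) → Pt k (Fin (n + r)) := fun z =>
    ap (N := n) (n := r) (sn (m + r) z) (sn m (fs n z))
  let B : Pt k (Fin (n + r)) → Pt k (Fin (m + r + n)) := fun w =>
    ap (N := m + r) (n := n) (ap (ev Φ (fs r w)) (sn n w)) (fs r w)
  have g1 : ∀ z : Pt k (Fin (m + r + n)), aeval (sn (m + r) z) f = 0 →
      aeval (fs r (A z)) f = 0 := by
    intro z hz
    rw [fs_ap]
    exact hz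
  have g2 : ∀ w : Pt k (Fin (n + r)), aeval (fs r w) f = 0 → aeval (fs r (fs n (B w))) F = 0 ∧
      aeval (sn (m + r) (B w)) f = 0 ∧ fs r (fs n (B w)) = ev Φ (sn (m + r) (B w)) := by
    intro w hw
    rw [fs_ap, fs_ap, sn_ap]
    exact ⟨hΦ _ hw, hw, rfl⟩
  have g3 : ∀ z : Pt k (Fin (m + r + n)), fs r (fs n z) = ev Φ (sn (m + r) z) →
      B (A z) = z := by
    intro z h2
    change ap (N := m + r) (n := n) (ap (ev Φ (fs r (A z))) (sn n (A z))) (fs r (A z)) = z
    rw [fs_ap, sn_ap, ← h2, ap_fs_sn, ap_fs_sn]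
  have g4 : ∀ w : Pt k (Fin (n + r)), A (B w) = w := by
    intro w
    change ap (N := n) (n := r) (sn (m + r) (B w)) (sn m (fs n (B w))) = w
    rw [fs_ap, sn_ap, sn_ap, ap_fs_sn]
  have g5 : ∀ z : Pt k (Fin (m + r + n)), fs r (A z) = sn (m + r) z := fun z => fs_ap _ _
  refine mk_iso (pb f Φ (MuVar.aff F r)) (MuVar.aff f r) A B ?_
  exact
    { regular := rg_ap (regularOn_poly (fun i => IsPF.coord _) _)
        (regularOn_poly (fun i => IsPF.coord _) _)
      regular' := rg_ap (rg_ap (regularOn_poly (fun j => (IsPF.poly (Φ j)).comp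
        (fun z : Pt k (Fin (n + r)) => fs r z) fun i => IsPF.coord _) _)
        (regularOn_poly (fun i => IsPF.coord _) _)) (regularOn_poly (fun i => IsPF.coord _) _)
      mapsTo := fun z hz => g1 z hz.2.1
      mapsTo' := fun w hw => g2 w hw
      left_inv := fun z hz => g3 z hz.2.2
      right_inv := fun w hw => g4 w
      overBase := fun z hz => g5 z
      equivariant := fun l hl z hz => by
        change ap (N := n) (n := r) (sn (m + r) (ap (fs n z) (sn (m + r) z)))
          (sn m (fs n (ap (fs n z) (sn (m + r) z)))) =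
          ap (N := n) (n := r) (sn (m + r) z) (sn m (fs n z))
        rw [ap_fs_sn] }

theorem pb_affine (hΦ : ∀ x : Pt k (Fin n), aeval x f = 0 → aeval (fun j => aeval x (Φ j)) F = 0)
    (V P : MuVar F) (r : ℕ) (p : Pt k (Fin P.N) → Pt k (Fin V.N))
    (q : Pt k (Fin P.N) → Pt k (Fin r)) (j : Pt k (Fin V.N ⊕ Fin r) → Pt k (Fin P.N))
    (h : IsAffineLift V P r p q j) :
    K0Mu.mk (pb f Φ P) = K0Mu.mk (pb f Φ V) * K0Mu.mk (pb f Φ (MuVar.aff F r)) := by
  rw [pb_aff f Φ hΦ r]
  let a : Fin V.N ⊕ Fin r → Fin (V.N + n) ⊕ Fin r := Sum.map (Fin.castAdd n) id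
  let p' : Pt k (Fin (P.N + n)) → Pt k (Fin (V.N + n)) := fun z => ap (p (fs n z)) (sn P.N z)
  let J : Pt k (Fin (V.N + n) ⊕ Fin r) → Pt k (Fin (P.N + n)) := fun w =>
    ap (j (fun s => w (a s))) (fun i => w (Sum.inl (Fin.natAdd V.N i)))
  have hJ : ∀ (v : Pt k (Fin (V.N + n))) (w : Pt k (Fin r)),
      J (Sum.elim v w) = ap (j (Sum.elim (fs n v) w)) (sn V.N v) := by
    intro v w
    have h1 : (fun s => (Sum.elim v w : _ → AlgebraicClosure k) (a s)) =
        Sum.elim (fs n v) w := by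
      funext s
      rcases s with s | s <;> rfl
    change ap (j (fun s => (Sum.elim v w : _ → AlgebraicClosure k) (a s))) (sn V.N v) = _
    rw [h1]
  have m1 : ∀ z ∈ pS f Φ P P.S, p' z ∈ pS f Φ V V.S ∧ sn V.N (p' z) = sn P.N z := by
    intro z hz
    obtain ⟨h1, h4⟩ := h.mapsTo _ hz.1
    refine ⟨⟨?_, ?_, ?_⟩, ?_⟩
    · rw [fs_ap]
      exact h1
    · rw [sn_ap]
      exact hz.2.1
    · rw [fs_ap, sn_ap, h4]
      exact hz.2.2
    · rw [sn_ap]
  have m2 : ∀ v ∈ pS f Φ V V.S, ∀ w : Pt k (Fin r), J (Sum.elim v w) ∈ pS f Φ P P.S ∧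
      p' (J (Sum.elim v w)) = v ∧ q (fs n (J (Sum.elim v w))) = w := by
    intro v hv w
    obtain ⟨h1, h2, h3⟩ := h.mapsTo' _ hv.1 w
    have h9 := (h.mapsTo _ h1).2
    rw [h2] at h9
    rw [hJ]
    refine ⟨⟨?_, ?_, ?_⟩, ?_, ?_⟩
    · rw [fs_ap]
      exact h1
    · rw [sn_ap]
      exact hv.2.1
    · rw [fs_ap, sn_ap, ← h9]
      exact hv.2.2
    · change ap (p (fs n _)) (sn P.N _) = v
      rw [fs_ap, sn_ap, h2, ap_fs_sn]
    · rw [fs_ap, h3]
  have m3 : ∀ z ∈ pS f Φ P P.S, J (Sum.elim (p' z) (q (fs n z))) = z := by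
    intro z hz
    rw [hJ, fs_ap, sn_ap, h.inj _ hz.1, ap_fs_sn]
  have m4 : RegularOn {w : Pt k (Fin (V.N + n) ⊕ Fin r) |
      (fun i => w (Sum.inl i)) ∈ pS f Φ V V.S} J :=
    rg_ap (rg_rename h.regular_j a _ fun z hz => hz.1) (regularOn_poly (fun i => IsPF.coord _) _)
  have m5 : RegularOn (pS f Φ P P.S) p' := rg_ap (rg_rename h.regular_p _ _ fun z hz => hz.1)
        (regularOn_poly (fun i => IsPF.coord _) _)
  have m6 : RegularOn (pS f Φ P P.S) (fun z => q (fs n z)) :=
    rg_rename h.regular_q _ _ fun z hz => hz.1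
  refine mk_affine (pb f Φ V) (pb f Φ P) r p' (fun z => q (fs n z)) J ?_
  exact
    { regular_p := m5
      regular_q := m6
      regular_j := m4
      mapsTo := m1
      mapsTo' := m2
      inj := m3
      equivariant_p := fun l hl z hz => by
        have h1 := h.equivariant_p l hl _ hz.1
        change ap (p (fs n (ap (P.act (l ^ V.d) (fs n z)) (sn P.N z))))
          (sn P.N (ap (P.act (l ^ V.d) (fs n z)) (sn P.N z))) =
          ap (V.act (l ^ P.d) (fs n (ap (p (fs n z)) (sn P.N z))))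
            (sn V.N (ap (p (fs n z)) (sn P.N z)))
        rw [fs_ap, sn_ap, fs_ap, sn_ap, h1]
      affine := fun l hl v hv => by
        obtain ⟨A, b, hAb⟩ := h.affine l hl _ hv.1
        refine ⟨A, b, fun z hz hzv => ?_⟩
        have h1 : p (fs n z) = fs n v := by
          have h3 : ap (p (fs n z)) (sn P.N z) = v := hzv
          rw [← h3, fs_ap]
        have h2 := hAb _ hz.1 h1
        change q (fs n (ap (P.act l (fs n z)) (sn P.N z))) = _
        rw [fs_ap, h2] }

theorem rel_zero (hΦ : ∀ x : Pt k (Fin n), aeval x f = 0 → aeval (fun j => aeval x (Φ j)) F = 0)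
    (x : MvPolynomial (MuVar F) ℤ) (hx : RelMu F x) :
    eval₂Hom (Int.castRingHom (K0Mu f)) (fun V => K0Mu.mk (pb f Φ V)) x = 0 := by
  cases hx with
  | iso V W φ ψ h =>
    rw [map_sub, eval₂Hom_X', eval₂Hom_X', pb_iso f Φ V W φ ψ h, sub_self]
  | scissors V T hT hTS hst hT' hst' =>
    rw [map_sub, map_add, eval₂Hom_X', eval₂Hom_X', eval₂Hom_X',
      pb_scissors f Φ V T hT hTS hst hT' hst', sub_self]
  | prod V W P p q j h =>
    rw [map_sub, map_mul, eval₂Hom_X', eval₂Hom_X', eval₂Hom_X', pb_prod f Φ V W P p q j h,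
      sub_self]
  | one => rw [map_sub, eval₂Hom_X', map_one, pb_one f Φ hΦ, sub_self]
  | affine V P r p q j h =>
    rw [map_sub, map_mul, eval₂Hom_X', eval₂Hom_X', eval₂Hom_X',
      pb_affine f Φ hΦ V P r p q j h, sub_self]

theorem pb_diag {ι : Type} [Fintype ι] (S : Set (Pt k ι)) (ρ : ι → ℤ) (d : ℕ)
    (β : Fin m → Option ι) (hV : Valid F S ρ d β)
    (hV' : Valid f (pbSet f Φ S β) (Sum.elim ρ 0) d (fun i => some (Sum.inr i))) :
    K0Mu.mk (pb f Φ (diagVar hV)) = K0Mu.mk (diagVar hV') := by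
  let a := Fintype.equivFin ι
  let b := Fintype.equivFin (ι ⊕ Fin n)
  -- the coordinates
  let u : ι ⊕ Fin n → Fin (Fintype.card ι + n) :=
    Sum.elim (fun i => Fin.castAdd n (a i)) (fun i => Fin.natAdd (Fintype.card ι) i)
  have hu1 : ∀ z : Pt k (Fin (Fintype.card ι + n)),
      (fun i => (fun i => z (u (b.symm i))) (b (Sum.inl i))) = fun i => fs n z (a i) := by
    intro z
    funext i
    simp only [Equiv.symm_apply_apply]
    rfl
  have hu2 : ∀ z : Pt k (Fin (Fintype.card ι + n)),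
      (fun i => (fun i => z (u (b.symm i))) (b (Sum.inr i))) = sn (Fintype.card ι) z := by
    intro z
    funext i
    simp only [Equiv.symm_apply_apply]
    rfl
  have hw1 : ∀ w : Pt k (Fin (Fintype.card (ι ⊕ Fin n))),
      (fun i => (fun j => w (b (Sum.inl (a.symm j)))) (a i)) = fun i => w (b (Sum.inl i)) := by
    intro w
    funext i
    simp only [Equiv.symm_apply_apply]
  have g2 : ∀ w : Pt k (Fin (Fintype.card (ι ⊕ Fin n))), (fun i => w (b i)) ∈ pbSet f Φ S β →
      (fun i => fs n (ap (N := Fintype.card ι) (fun j => w (b (Sum.inl (a.symm j))))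
        (fun i => w (b (Sum.inr i)))) (a i)) ∈ S ∧
      aeval (sn (Fintype.card ι) (ap (N := Fintype.card ι) (fun j => w (b (Sum.inl (a.symm j))))
        (fun i => w (b (Sum.inr i))))) f = 0 ∧
      cbase β (fun i => fs n (ap (N := Fintype.card ι) (fun j => w (b (Sum.inl (a.symm j))))
        (fun i => w (b (Sum.inr i)))) (a i)) =
        ev Φ (sn (Fintype.card ι) (ap (N := Fintype.card ι)
          (fun j => w (b (Sum.inl (a.symm j)))) (fun i => w (b (Sum.inr i))))) := by
    intro w hw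
    rw [fs_ap, sn_ap, hw1]
    exact hw
  refine mk_iso (pb f Φ (diagVar hV)) (diagVar hV') (fun z i => z (u (b.symm i)))
    (fun w => ap (N := Fintype.card ι) (fun j => w (b (Sum.inl (a.symm j))))
      (fun i => w (b (Sum.inr i)))) ?_
  exact
    { regular := regularOn_poly (fun i => IsPF.coord _) _
      regular' := rg_ap (regularOn_poly (fun i => IsPF.coord _) _)
        (regularOn_poly (fun i => IsPF.coord _) _)
      mapsTo := fun z hz => by
        obtain ⟨h1, h2, h3⟩ := hz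
        change (fun i => (fun i => z (u (b.symm i))) (b i)) ∈ pbSet f Φ S β
        refine ⟨?_, ?_, ?_⟩
        · rw [hu1]
          exact h1
        · rw [hu2]
          exact h2
        · rw [hu1, hu2]
          exact h3
      mapsTo' := fun w hw => g2 w hw
      left_inv := fun z hz => by
        have h1 : (fun j => (fun i => z (u (b.symm i))) (b (Sum.inl (a.symm j)))) = fs n z := by
          funext j
          have := congrFun (hu1 z) (a.symm j)
          rw [this]
          change fs n z (a (a.symm j)) = _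
          rw [Equiv.apply_symm_apply]
        change ap (fun j => (fun i => z (u (b.symm i))) (b (Sum.inl (a.symm j))))
          (fun i => (fun i => z (u (b.symm i))) (b (Sum.inr i))) = z
        rw [h1, hu2]
        exact ap_fs_sn z
      right_inv := fun w hw => by
        funext i
        obtain ⟨i, rfl⟩ := b.surjective i
        change ap _ _ (u (b.symm (b i))) = _
        rw [Equiv.symm_apply_apply]
        rcases i with i | i
        · change fs n (ap _ _) (a i) = _
          rw [fs_ap, Equiv.symm_apply_apply]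
        · change sn (Fintype.card ι) (ap _ _) i = _
          rw [sn_ap]
      overBase := fun z hz => by
        funext i
        exact congrFun (hu2 z) i
      equivariant := fun l hl z hz => by
        funext i
        obtain ⟨i, rfl⟩ := b.surjective i
        change ap (dact (fun i => ρ (a.symm i)) (l ^ d) (fs n z)) (sn (Fintype.card ι) z)
          (u (b.symm (b i))) = dact (fun i => (Sum.elim ρ 0 : _ → ℤ) (b.symm i)) (l ^ d)
            (fun i => z (u (b.symm i))) (b i)
        simp only [dact, Equiv.symm_apply_apply]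
        rcases i with i | i
        · change fs n (ap _ _) (a i) = _
          rw [fs_ap]
          change (l ^ d) ^ ρ (a.symm (a i)) * z (Fin.castAdd n (a i)) =
            (l ^ d) ^ ρ i * z (Fin.castAdd n (a i))
          rw [Equiv.symm_apply_apply]
        · change sn (Fintype.card ι) (ap _ _) i = _
          rw [sn_ap]
          simp only [Sum.elim_inr, Pi.zero_apply, zpow_zero, one_mul]
          rfl }

end Pb

/-- **job TE-PULL** -/
theorem pull : S_PULL := by
  intro k _ m n F f Φ hΦ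
  let E : MvPolynomial (MuVar F) ℤ →+* K0Mu f :=
    eval₂Hom (Int.castRingHom (K0Mu f)) (fun V => K0Mu.mk (pb f Φ V))
  let P : K0Mu F →+* K0Mu f := Ideal.Quotient.lift (Ideal.span {x | RelMu F x}) E
    fun x hx => by
      have h1 : Ideal.span {x | RelMu F x} ≤ RingHom.ker E :=
        Ideal.span_le.2 fun x hx => rel_zero f Φ hΦ x hx
      exact h1 hx
  have hP : ∀ V : MuVar F, P (K0Mu.mk V) = K0Mu.mk (pb f Φ V) := fun V =>
    (Ideal.Quotient.lift_mk _ _ _).trans (eval₂Hom_X' _ _ _)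
  refine ⟨P, ?_, fun ι _ S ρ d β hV hV' => ?_⟩
  · unfold LMu
    rw [hP, pb_aff f Φ hΦ 1]
  · rw [hP, pb_diag f Φ S ρ d β hV hV']

end Pool.Agent.Q184.TE
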